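import Pool.Agent.Y602.LW.Main

/-!
# Square sequences are characterised by nonreflection

Full answer to Q1 (yes, in ZFC: part 4), in a stronger form.

Let `λ` be regular, `ν` an infinite cardinal with `ν⁺ < λ`, and `S ⊆ λ` stationary.

1. Let `C` be a coherent sequence of length `λ` and width `< λ` (only!) without a thread, such
   that `|C_β| ≤ ν` for the points `β` of `S` (only!). For every choice of clubs `c_α ∈ C_α` there
   is a family `F` of at most `ν` stationary subsets of `S` such that for every limit ordinal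
   `α < λ` (of any cofinality) some member of `F` meets `acc c_α` in a set that is bounded in `α`.
   So `F` does not reflect simultaneously, and the nonreflection is witnessed by `c`.
2. Characterisation: a coherent sequence `C` of width at most `ν` has no thread if and only if
   there is a family `F` of at most `ν` stationary subsets of `S` such that for all limit ordinals
   `α < λ` and all `c ∈ C_α` some member of `F` meets `acc c` in a bounded subset of `α`.
3. Let `κ < λ` be uncountable. For every `□(λ, < κ)` sequence `C`, every stationary `S ⊆ λ`, and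
   every choice `c_α ∈ C_α`, there are an infinite cardinal `ν < κ` and a family as in 1.
4. Hence `Refl(< κ, S)` fails for every stationary `S ⊆ λ`, if `□(λ, < κ)` holds.

The proof of 1 is the one of the starting file `SimultaneousReflectionFails` (library of
helper877); it is repeated for the weaker notion of reflection given by one club at every point.
-/

set_option autoImplicit false

universe u

open Cardinal

namespace Pool.Agent.Results.MP_c650be_lc.ThreadCharacterisation

open Pool.Agent.W877.Sq Pool.Agent.Y602.LW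

theorem result :
    (∀ (lam nu : Cardinal.{u}) (C : Ordinal.{u} → Set (Set Ordinal.{u})) (S : Set Ordinal.{u}),
      lam.IsRegular → ℵ₀ ≤ nu → Order.succ nu < lam → IsCoherentSeq lam lam C →
      (¬ ∃ D, IsThread lam C D) → IsStationaryIn S lam.ord →
      (∀ β ∈ S, #(C β) ≤ Cardinal.lift.{u + 1} nu) →
      ∀ cc : Ordinal.{u} → Set Ordinal.{u}, (∀ α < lam.ord, cc α ∈ C α) →
      ∃ F : Set (Set Ordinal.{u}), #F ≤ Cardinal.lift.{u + 1} nu ∧
        (∀ T ∈ F, T ⊆ S ∧ IsStationaryIn T lam.ord) ∧
        (∀ α < lam.ord, Order.IsSuccLimit α → ∃ T ∈ F, BddAcc α (cc α) T) ∧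
        ¬ ∃ α < lam.ord, ∀ T ∈ F, ReflectsAt T α) ∧
    (∀ (lam nu : Cardinal.{u}) (C : Ordinal.{u} → Set (Set Ordinal.{u})) (S : Set Ordinal.{u}),
      lam.IsRegular → ℵ₀ ≤ nu → Order.succ nu < lam → IsCoherentSeq lam (Order.succ nu) C →
      IsStationaryIn S lam.ord →
      ((¬ ∃ D, IsThread lam C D) ↔
        ∃ F : Set (Set Ordinal.{u}), #F ≤ Cardinal.lift.{u + 1} nu ∧
          (∀ T ∈ F, T ⊆ S ∧ IsStationaryIn T lam.ord) ∧
          ∀ α < lam.ord, Order.IsSuccLimit α → ∀ c ∈ C α, ∃ T ∈ F, BddAcc α c T)) ∧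
    (∀ (kappa lam : Cardinal.{u}) (C : Ordinal.{u} → Set (Set Ordinal.{u})) (S : Set Ordinal.{u}),
      ℵ₀ < kappa → kappa < lam → lam.IsRegular → IsCoherentSeq lam kappa C →
      (¬ ∃ D, IsThread lam C D) → IsStationaryIn S lam.ord →
      ∀ cc : Ordinal.{u} → Set Ordinal.{u}, (∀ α < lam.ord, cc α ∈ C α) →
      ∃ nu < kappa, ℵ₀ ≤ nu ∧ ∃ F : Set (Set Ordinal.{u}), #F ≤ Cardinal.lift.{u + 1} nu ∧
        (∀ T ∈ F, T ⊆ S ∧ IsStationaryIn T lam.ord) ∧
        ∀ α < lam.ord, Order.IsSuccLimit α → ∃ T ∈ F, BddAcc α (cc α) T) ∧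
    (∀ (kappa lam : Cardinal.{u}), ℵ₀ < kappa → kappa < lam → lam.IsRegular →
      SquareLt lam kappa → ∀ S : Set Ordinal.{u}, IsStationaryIn S lam.ord →
      ¬ ReflLt lam kappa S) := by
  refine ⟨?_, ?_, ?_, ?_⟩
  · intro lam nu C S hreg hnu hnul hC hno hS hw cc hcc
    obtain ⟨F, h1, h2, h3⟩ := choice_form hreg hnu hnul hC hno hS hw cc hcc
    refine ⟨F, h1, h2, h3, ?_⟩
    refine not_reflects (lt_of_le_of_lt hnu ((Order.lt_succ nu).trans hnul)) hC ?_
    intro α hα hlim
    obtain ⟨T, hT, h⟩ := h3 α hα hlim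
    exact ⟨T, hT, cc α, hcc α hα, h⟩
  · intro lam nu C S hreg hnu hnul hC hS
    constructor
    · intro hno
      exact all_clubs hreg hnu hnul hC hno hS
    · rintro ⟨F, h1, h2, h3⟩ hth
      refine of_thread hreg (lt_of_le_of_lt hnu ((Order.lt_succ nu).trans hnul)) hC hth
        (lt_of_le_of_lt h1 (Cardinal.lift_lt.2 ((Order.lt_succ nu).trans hnul)))
        (fun T hT => (h2 T hT).2) h3
  · intro kappa lam C S hk hkl hreg hC hno hS cc hcc
    exact square_form hk hkl hreg hC hno hS cc hcc
  · rintro kappa lam hk hkl hreg ⟨C, hC, hno⟩ S hS hR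
    classical
    obtain ⟨nu, h1, h2, F, h3, h4, h5⟩ := square_form hk hkl hreg hC hno hS
      (fun α => if h : α < lam.ord then (hC.nonempty α h).some else ∅)
      (fun α hα => by
        rw [dif_pos hα]
        exact (hC.nonempty α hα).some_mem)
    refine not_reflects (hk.trans hkl) hC ?_
      (hR F (lt_of_le_of_lt h3 (Cardinal.lift_lt.2 h1)) h4)
    intro α hα hlim
    obtain ⟨T, hT, h⟩ := h5 α hα hlim
    rw [dif_pos hα] at h
    exact ⟨T, hT, _, (hC.nonempty α hα).some_mem, h⟩

end Pool.Agent.Results.MP_c650be_lc.ThreadCharacterisation
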